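import Pool.Agent.L5helper1.AS.Corr2

set_option autoImplicit false
set_option linter.unusedSectionVars false
set_option linter.unusedVariables false
set_option maxHeartbeats 4000000

/-! # Translates of the primes in the intervals `(x, x + √x)` -/

namespace Pool.Agent.L5helper1.SI

open Finset Filter Pool.Agent.L5helper1.AS

open scoped Classical

/-- the basic consequence: `X = √x / 2`, `T` replaced by `T - 1` -/
theorem short₁ (D δ : ℝ) (hD : 0 < D) (hδ : 0 < δ) : ∃ T₀ x₀ : ℝ, ∀ x : ℝ, x₀ ≤ x →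
    1 ≤ T₀ ∧ 2 ≤ x ∧ ∀ T : ℝ, T₀ ≤ T → T ≤ Real.log x / 4 →
    ∀ B : Finset ℤ, (B.card : ℝ) ≤ Real.log x * Real.log T / (2000 * (D + 7)) →
    (∀ β ∈ B, |(β : ℝ)| ≤ Real.exp ((Real.log x) ^ D)) →
    Real.sqrt x * Real.exp (-T) ≤ ({n : ℤ | x < (n : ℝ) ∧ (n : ℝ) < x + Real.sqrt x ∧
        ∀ b ∈ B, ∃ p : ℕ, p.Prime ∧ (p : ℝ) ≤ x ^ δ ∧ (p : ℤ) ∣ n + b}.ncard : ℝ) := by
  obtain ⟨T₁, X₁, h⟩ := partA (D + 1) δ (by linarith) hδ
  refine ⟨max (T₁ + 1) 4, Real.exp (max (2 * (|X₁| + 4)) (3 ^ (D + 1))), fun x hx => ?_⟩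
  have hx0 : 0 < x := (Real.exp_pos _).trans_le hx
  have hl : max (2 * (|X₁| + 4)) (3 ^ (D + 1)) ≤ Real.log x := by
    rw [Real.le_log_iff_exp_le hx0]
    exact hx
  have hl1 : 2 * (|X₁| + 4) ≤ Real.log x := (le_max_left _ _).trans hl
  have hl2 : (3:ℝ) ^ (D + 1) ≤ Real.log x := (le_max_right _ _).trans hl
  have hX₁0 : 0 ≤ |X₁| := abs_nonneg _
  have hl8 : 8 ≤ Real.log x := by linarith
  have hx2 : 2 ≤ x := by
    have h1 := Real.add_one_le_exp (Real.log x)
    rw [Real.exp_log hx0] at h1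
    linarith
  refine ⟨(by norm_num : (1:ℝ) ≤ 4).trans (le_max_right _ _), hx2, fun T hT hTL B hBc hBs => ?_⟩
  have hT4 : 4 ≤ T := (le_max_right _ _).trans hT
  have hT1 : T₁ ≤ T - 1 := by
    have := (le_max_left _ _).trans hT
    linarith
  set X := Real.sqrt x / 2 with hX
  have hs0 : 0 < Real.sqrt x := Real.sqrt_pos.2 hx0
  have hX0 : 0 < X := by positivity
  have hlogX : Real.log X = Real.log x / 2 - Real.log 2 := by
    rw [hX, Real.log_div hs0.ne' (by norm_num), Real.log_sqrt hx0.le]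
  have hlog2 : Real.log 2 ≤ 1 := by
    have := Real.log_two_lt_d9
    linarith
  have hlog20 : 0 ≤ Real.log 2 := Real.log_nonneg (by norm_num)
  have hLX : Real.log x / 3 ≤ Real.log X := by rw [hlogX]; linarith
  have hLX2 : Real.log X ≤ Real.log x := by rw [hlogX]; linarith
  have hX₁X : X₁ ≤ X := by
    have h1 := Real.add_one_le_exp (Real.log X)
    rw [Real.exp_log hX0] at h1
    have h2 : X₁ ≤ |X₁| := le_abs_self _
    rw [hlogX] at h1
    linarith
  have hlT : Real.log T ≤ 2 * Real.log (T - 1) := by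
    have e1 : T ≤ (T - 1) ^ 2 := by nlinarith
    have e2 := Real.log_le_log (by linarith) e1
    rwa [Real.log_pow, Nat.cast_ofNat] at e2
  have hlT0 : 0 ≤ Real.log (T - 1) := Real.log_nonneg (by linarith)
  have hTX : T - 1 ≤ Real.log X := by rw [hlogX]; linarith
  have hmain := h X hX₁X (T - 1) hT1 hTX B (by
    refine hBc.trans ?_
    rw [div_le_div_iff₀ (by positivity) (by positivity)]
    have e1 : Real.log x * Real.log T ≤ (3 * Real.log X) * (2 * Real.log (T - 1)) :=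
      mul_le_mul (by linarith) hlT (Real.log_nonneg (by linarith)) (by linarith)
    have e2 : 0 ≤ Real.log X * Real.log (T - 1) := mul_nonneg (by linarith) hlT0
    calc Real.log x * Real.log T * (300 * (D + 1 + 6)) ≤
          (3 * Real.log X) * (2 * Real.log (T - 1)) * (300 * (D + 1 + 6)) :=
          mul_le_mul_of_nonneg_right e1 (by positivity)
      _ = Real.log X * Real.log (T - 1) * (1800 * (D + 7)) := by ring
      _ ≤ Real.log X * Real.log (T - 1) * (2000 * (D + 7)) :=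
          mul_le_mul_of_nonneg_left (by linarith) e2) (by
    intro β hβ
    refine (hBs β hβ).trans (Real.exp_le_exp.2 ?_)
    have e1 : (Real.log x / 3) ^ (D + 1) ≤ (Real.log X) ^ (D + 1) :=
      Real.rpow_le_rpow (by positivity) hLX (by linarith)
    refine le_trans ?_ e1
    rw [Real.div_rpow (by linarith) (by norm_num), le_div_iff₀ (by positivity)]
    have e2 : (Real.log x) ^ (D + 1) = (Real.log x) ^ D * Real.log x := by
      rw [Real.rpow_add (by linarith), Real.rpow_one]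
    rw [e2]
    exact mul_le_mul_of_nonneg_left hl2 (Real.rpow_nonneg (by linarith) _)) x
  have hcount : Real.sqrt x * Real.exp (-T) ≤ X * Real.exp (-(T - 1)) := by
    have e1 : Real.exp (-(T - 1)) = Real.exp (-T) * Real.exp 1 := by
      rw [← Real.exp_add]
      congr 1
      ring
    have e2 : 2 ≤ Real.exp 1 := by
      have := Real.add_one_le_exp (1:ℝ)
      linarith
    have e3 : 0 < Real.sqrt x * Real.exp (-T) := by positivity
    rw [e1, hX]
    nlinarith
  refine hcount.trans (hmain.trans ?_)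
  have hfin : {n : ℤ | x < (n : ℝ) ∧ (n : ℝ) < x + Real.sqrt x ∧
        ∀ b ∈ B, ∃ p : ℕ, p.Prime ∧ (p : ℝ) ≤ x ^ δ ∧ (p : ℤ) ∣ n + b}.Finite := by
    apply (Set.finite_Icc ⌊x⌋ ⌈x + Real.sqrt x⌉).subset
    intro n hn
    rw [Set.mem_Icc]
    refine ⟨Int.floor_le_iff.2 (by linarith [hn.1]), Int.le_ceil_iff.2 (by linarith [hn.2.1])⟩
  have hsub : GS x X B (X ^ δ) ⊆ {n : ℤ | x < (n : ℝ) ∧ (n : ℝ) < x + Real.sqrt x ∧
        ∀ b ∈ B, ∃ p : ℕ, p.Prime ∧ (p : ℝ) ≤ x ^ δ ∧ (p : ℤ) ∣ n + b} := by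
    intro n hn
    obtain ⟨h1, h2, h3⟩ := hn
    refine ⟨h1, ?_, fun b hb => ?_⟩
    · have : X < Real.sqrt x := by rw [hX]; linarith
      linarith
    · obtain ⟨p, hp1, hp2, hp3⟩ := h3 b hb
      refine ⟨p, hp1, hp2.trans ?_, hp3⟩
      apply Real.rpow_le_rpow hX0.le _ hδ.le
      have e1 : Real.sqrt x ≤ x := by
        have := Real.sqrt_le_sqrt (show x ≤ x * x by nlinarith)
        rwa [Real.sqrt_mul_self hx0.le] at this
      rw [hX]
      linarith
  exact_mod_cast Set.ncard_le_ncard hsub hfin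

theorem ev_s : ∃ L₀ : ℝ, ∀ L : ℝ, L₀ ≤ L → 8 ≤ L ∧ 8 * L ^ 2 ≤ Real.exp (L / 8) := by
  have h := (Real.isLittleO_pow_exp_atTop (n := 2)).def (show (0:ℝ) < 1 / 512 by norm_num)
  have h2 : Tendsto (fun L : ℝ => L / 8) atTop atTop :=
    Filter.tendsto_id.atTop_div_const (by norm_num)
  have h3 := h2.eventually h
  obtain ⟨L₀, hL₀⟩ := Filter.eventually_atTop.1 (h3.and (eventually_ge_atTop (8:ℝ)))
  refine ⟨L₀, fun L hL => ?_⟩
  obtain ⟨h4, h5⟩ := hL₀ L hL
  refine ⟨h5, ?_⟩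
  rw [Real.norm_of_nonneg (by positivity), Real.norm_of_nonneg (Real.exp_pos _).le] at h4
  nlinarith

/-- integers of `(x, x + √x)` outside `P + A` -/
theorem short₂ : ∃ T₀ x₀ : ℝ, ∀ x : ℝ, x₀ ≤ x → ∀ T : ℝ, T₀ ≤ T → T ≤ Real.log x / 4 →
    ∀ A : Set ℕ, ((A ∩ {a : ℕ | (a:ℝ) ≤ 2 * x}).ncard : ℝ) ≤ Real.log x * Real.log T / 20000 →
    Real.sqrt x * Real.exp (-T) / 2 ≤
      ({n : ℕ | x < (n:ℝ) ∧ (n:ℝ) < x + Real.sqrt x ∧
        ¬ ∃ p a : ℕ, p.Prime ∧ a ∈ A ∧ n = p + a}.ncard : ℝ) := by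
  obtain ⟨T₀, x₀, hA⟩ := short₁ 2 (1 / 16) (by norm_num) (by norm_num)
  obtain ⟨L₁, hL₁⟩ := ev_s
  refine ⟨T₀, max x₀ (Real.exp L₁), ?_⟩
  intro X hX T hT hTL A hAc
  have hX1 : x₀ ≤ X := (le_max_left _ _).trans hX
  have hX2 : Real.exp L₁ ≤ X := (le_max_right _ _).trans hX
  have hX0 : 0 < X := (Real.exp_pos _).trans_le hX2
  have hLe : L₁ ≤ Real.log X := by
    rw [Real.le_log_iff_exp_le hX0]
    exact hX2
  obtain ⟨hT01, hX22, hA'⟩ := hA X hX1
  obtain ⟨hL8, hLsq⟩ := hL₁ (Real.log X) hLe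
  have hXL : Real.exp (Real.log X) = X := Real.exp_log hX0
  set L := Real.log X with hLdef
  have hL0 : 0 < L := by linarith
  have hT1 : 1 ≤ T := hT01.trans hT
  have hs : Real.sqrt X ≤ X := by
    have := Real.sqrt_le_sqrt (show X ≤ X * X by nlinarith)
    rwa [Real.sqrt_mul_self hX0.le] at this
  -- the finite set
  have hfinA : (A ∩ {a : ℕ | (a:ℝ) ≤ 2 * X}).Finite := by
    apply (Set.finite_Iic ⌊2 * X⌋₊).subset
    intro n hn
    exact Nat.le_floor hn.2
  set A' : Finset ℕ := hfinA.toFinset with hA''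
  have hA'c : (A'.card : ℝ) ≤ L * Real.log T / 20000 := by
    rw [hA'', ← Set.ncard_eq_toFinset_card _ hfinA]
    exact hAc
  set B : Finset ℤ := A'.image (fun a : ℕ => -(a:ℤ)) with hB
  have hBc : (B.card : ℝ) ≤ L * Real.log T / (2000 * (2 + 7)) := by
    have h1 : (B.card : ℝ) ≤ A'.card := by exact_mod_cast Finset.card_image_le
    refine (h1.trans hA'c).trans ?_
    apply div_le_div_of_nonneg_left _ (by norm_num) (by norm_num)
    exact mul_nonneg hL0.le (Real.log_nonneg hT1)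
  have hBs : ∀ β ∈ B, |(β : ℝ)| ≤ Real.exp (L ^ (2:ℝ)) := by
    intro β hβ
    rw [hB, Finset.mem_image] at hβ
    obtain ⟨a, ha, rfl⟩ := hβ
    rw [hA'', Set.Finite.mem_toFinset] at ha
    push_cast
    rw [abs_neg, abs_of_nonneg (Nat.cast_nonneg a)]
    refine ha.2.trans ?_
    have e1 : 2 * X ≤ Real.exp (L + L) := by
      rw [Real.exp_add, hXL]
      nlinarith
    refine e1.trans (Real.exp_le_exp.2 ?_)
    rw [Real.rpow_two]
    nlinarith
  have hmain := hA' T hT hTL B hBc hBs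
  set K : ℕ := ⌊X ^ ((1:ℝ) / 16)⌋₊ with hK
  set Z : Finset ℤ := (A' ×ˢ Finset.range (K + 1)).image (fun q => ((q.1 : ℤ) + (q.2 : ℤ))) with hZ
  set S : Set ℕ := {n : ℕ | X < (n:ℝ) ∧ (n:ℝ) < X + Real.sqrt X ∧
        ¬ ∃ p a : ℕ, p.Prime ∧ a ∈ A ∧ n = p + a} with hS
  have hSfin : S.Finite := by
    apply (Set.finite_Iic ⌊X + Real.sqrt X⌋₊).subset
    intro n hn
    exact Nat.le_floor hn.2.1.le
  have hX14 : 0 ≤ X ^ ((1:ℝ) / 16) := (Real.rpow_pos_of_pos hX0 _).le
  have hsub : {n : ℤ | X < (n : ℝ) ∧ (n : ℝ) < X + Real.sqrt X ∧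
        ∀ b ∈ B, ∃ p : ℕ, p.Prime ∧ (p : ℝ) ≤ X ^ ((1:ℝ) / 16) ∧ (p : ℤ) ∣ n + b} ⊆
      (fun n : ℕ => (n:ℤ)) '' S ∪ (Z : Set ℤ) := by
    intro n hn
    obtain ⟨h1, h2, h3⟩ := hn
    have hn0 : 0 ≤ n := by
      have : (0:ℝ) < n := hX0.trans h1
      exact_mod_cast this.le
    obtain ⟨m, rfl⟩ := Int.eq_ofNat_of_zero_le hn0
    have hm1 : X < (m:ℝ) := by exact_mod_cast h1
    have hm2 : (m:ℝ) < X + Real.sqrt X := by exact_mod_cast h2
    by_cases hm : m ∈ S
    · exact Or.inl ⟨m, hm, rfl⟩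
    · right
      rw [hS, Set.mem_ofPred_eq] at hm
      push Not at hm
      obtain ⟨q, a, hq, haA, hqa⟩ := hm hm1 hm2
      have ha' : a ∈ A' := by
        rw [hA'', Set.Finite.mem_toFinset]
        refine ⟨haA, ?_⟩
        have : (a:ℝ) ≤ m := by
          have : a ≤ m := by omega
          exact_mod_cast this
        show (a:ℝ) ≤ 2 * X
        linarith
      obtain ⟨p, hp, hpy, hpd⟩ := h3 (-(a:ℤ)) (by
        rw [hB, Finset.mem_image]
        exact ⟨a, ha', rfl⟩)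
      have e1 : ((m:ℤ) + -(a:ℤ)) = (q:ℤ) := by omega
      have e2 : (p:ℤ) ∣ (q:ℤ) := by
        have : (p:ℤ) ∣ (m:ℤ) + -(a:ℤ) := hpd
        rwa [e1] at this
      have e3 : p ∣ q := by exact_mod_cast e2
      have e4 := (Nat.prime_dvd_prime_iff_eq hp hq).1 e3
      have e5 : q ≤ K := by
        rw [hK]
        apply Nat.le_floor
        rw [← e4]
        exact hpy
      rw [hZ, Finset.mem_coe, Finset.mem_image]
      refine ⟨(a, q), ?_, ?_⟩
      · rw [Finset.mem_product, Finset.mem_range]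
        exact ⟨ha', by simp only; omega⟩
      · simp only
        omega
  have hZc : (Z.card : ℝ) ≤ A'.card * (X ^ ((1:ℝ) / 16) + 1) := by
    have h1 : Z.card ≤ A'.card * (K + 1) := by
      refine Finset.card_image_le.trans ?_
      rw [Finset.card_product, Finset.card_range]
    have h2 : (Z.card : ℝ) ≤ A'.card * (K + 1) := by exact_mod_cast h1
    refine h2.trans ?_
    apply mul_le_mul_of_nonneg_left _ (Nat.cast_nonneg _)
    have := Nat.floor_le hX14
    linarith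
  have hcount : (({n : ℤ | X < (n : ℝ) ∧ (n : ℝ) < X + Real.sqrt X ∧
        ∀ b ∈ B, ∃ p : ℕ, p.Prime ∧ (p : ℝ) ≤ X ^ ((1:ℝ) / 16) ∧ (p : ℤ) ∣ n + b}).ncard : ℝ) ≤
      S.ncard + Z.card := by
    have h1 := Set.ncard_le_ncard hsub ((hSfin.image _).union Z.finite_toSet)
    have h2 := Set.ncard_union_le ((fun n : ℕ => (n:ℤ)) '' S) (Z : Set ℤ)
    rw [Set.ncard_image_of_injective _ (fun a b h => by exact_mod_cast h),
      Set.ncard_coe_finset] at h2
    exact_mod_cast h1.trans h2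
  -- numbers
  have hAL : (A'.card : ℝ) ≤ L ^ 2 := by
    refine hA'c.trans ?_
    have h1 : Real.log T ≤ L := by
      have := Real.log_le_sub_one_of_pos (show 0 < T by linarith)
      linarith
    have h2 : L * Real.log T ≤ L * L := mul_le_mul_of_nonneg_left h1 hL0.le
    have h3 : 0 ≤ L * L := by positivity
    linarith
  have hXone : 1 ≤ X ^ ((1:ℝ) / 16) := by
    apply Real.one_le_rpow _ (by norm_num)
    linarith
  have hsq : Real.sqrt X = Real.exp (L / 2) := by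
    rw [Real.sqrt_eq_rpow, Real.rpow_def_of_pos hX0, ← hLdef]
    congr 1
    ring
  have hbad : (Z.card : ℝ) ≤ Real.sqrt X * Real.exp (-T) / 2 := by
    have e1 : X ^ ((1:ℝ) / 16) = Real.exp (L / 16) := by
      rw [Real.rpow_def_of_pos hX0, ← hLdef]
      congr 1
      ring
    have e2 : (A'.card : ℝ) * (X ^ ((1:ℝ) / 16) + 1) ≤ L ^ 2 * (2 * X ^ ((1:ℝ) / 16)) :=
      mul_le_mul hAL (by linarith) (by linarith) (by positivity)
    have e3 : Real.exp (L / 4) ≤ Real.sqrt X * Real.exp (-T) := by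
      rw [hsq, ← Real.exp_add]
      apply Real.exp_le_exp.2
      linarith
    have e4 : L ^ 2 * (2 * X ^ ((1:ℝ) / 16)) ≤ Real.exp (L / 4) / 2 := by
      rw [e1]
      have e5 : Real.exp (L / 4) = Real.exp (L / 16) * Real.exp (L / 8) * Real.exp (L / 16) := by
        rw [← Real.exp_add, ← Real.exp_add]
        congr 1
        ring
      have e6 : 1 ≤ Real.exp (L / 16) := Real.one_le_exp (by positivity)
      have e7 : 0 ≤ Real.exp (L / 16) * Real.exp (L / 8) := by positivity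
      have e8 : Real.exp (L / 16) * Real.exp (L / 8) ≤ Real.exp (L / 4) := by
        rw [e5]
        nlinarith
      have e9 := mul_le_mul_of_nonneg_left hLsq (Real.exp_pos (L / 16)).le
      linarith
    linarith
  linarith

end Pool.Agent.L5helper1.SI
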